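import Pool.Agent.T2H65.BG.Main

/-!
# Under CH there is a subgroup of `ℤ ^ ℕ` of size continuum satisfying `S₁(B_Ω, B_Γ)`

Sketch of the proof. Let `e` be a continuous injection of the Cantor space `K` into the group `H`. A
condition is a pair `(X, P)` of a countable subset `X` of `K` and a countable set `P` of perfect
subsets of `K`; the further points of the set to be constructed will be taken from the perfect sets
in `P`. A condition `(X', P')` is stronger than `(X, P)` if `X ⊆ X' ⊆ X ∪ ⋃ P`, each member of `P'`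
is contained in a member of `P`, and for each `T ∈ P` and each level `k` some member of `P'` is
contained in `T` and meets the same nodes of level `k` as `T`. Decreasing sequences of conditions
have lower bounds (fusion). Let `U n` be countable families of Borel sets. If for some `n` there is
a finite subset `F` of the group generated by `X ∪ ⋃ P` which is not contained in a member of `U n`,
then one adds to `X` finitely many points of `⋃ P`. Otherwise, given finitely many perfect sets in
`P` and finitely many combinations of points of these sets, the product of the perfect sets is the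
union of countably many Borel sets, one for each member of `U n`, hence one of them contains a
product of perfect subsets; in this way one gets by a simultaneous fusion `P'` and members
`V n ∈ U n` such that each element of the group generated by `X ∪ ⋃ P'` is in `V n` for almost
all `n`. As there are only `ℵ₁` sequences `U`, a construction of length `ω₁` gives the group.
-/

set_option autoImplicit false

namespace Pool.Agent.Results.MP_cc0654_lc.BorelGammaGroup

open Set Topology Filter
open Cardinal hiding univ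
open Pool.Agent.T2H65.BG

/-! ### The definitions of the problem -/

/-- `U` is an `ω`-cover of `Y`: `Y` is not a member of `U`, and every finite subset of `Y` is
contained in a member of `U`. -/
def IsOmegaCover {Y : Type*} (U : Set (Set Y)) : Prop :=
  univ ∉ U ∧ ∀ F : Set Y, F.Finite → ∃ u ∈ U, F ⊆ u

/-- `U` is a `γ`-cover of `Y`: it is infinite, and each point of `Y` lies in all but finitely many
members of `U`. -/
def IsGammaCover {Y : Type*} (U : Set (Set Y)) : Prop :=
  U.Infinite ∧ ∀ y : Y, {u | u ∈ U ∧ y ∉ u}.Finite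

/-- `Ω`: the open `ω`-covers of `Y`. -/
def OpenOmega (Y : Type*) [TopologicalSpace Y] : Set (Set (Set Y)) :=
  {U | (∀ u ∈ U, IsOpen u) ∧ IsOmegaCover U}

/-- `Γ`: the open `γ`-covers of `Y`. -/
def OpenGamma (Y : Type*) [TopologicalSpace Y] : Set (Set (Set Y)) :=
  {U | (∀ u ∈ U, IsOpen u) ∧ IsGammaCover U}

/-- `B_Ω`: the countable `ω`-covers of `Y` by Borel sets. -/
def BorelOmega (Y : Type*) [TopologicalSpace Y] : Set (Set (Set Y)) :=
  {U | U.Countable ∧ (∀ u ∈ U, @MeasurableSet Y (borel Y) u) ∧ IsOmegaCover U}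

/-- `B_Γ`: the countable `γ`-covers of `Y` by Borel sets. -/
def BorelGamma (Y : Type*) [TopologicalSpace Y] : Set (Set (Set Y)) :=
  {U | U.Countable ∧ (∀ u ∈ U, @MeasurableSet Y (borel Y) u) ∧ IsGammaCover U}

/-- The selection principle `S₁(A, B)`: for every sequence `U 0, U 1, …` of members of `A` one can
choose `V n ∈ U n` so that `{V n : n ∈ ℕ}` is a member of `B`. -/
def S1 {Y : Type*} (A B : Set (Set (Set Y))) : Prop :=
  ∀ U : ℕ → Set (Set Y), (∀ n, U n ∈ A) →
    ∃ V : ℕ → Set Y, (∀ n, V n ∈ U n) ∧ range V ∈ B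

/-! ### From the construction to the selection principles -/

theorem isGammaCover_range {Y : Type*} {V : ℕ → Set Y} (hne : ∀ n, V n ≠ univ)
    (hV : ∀ y, ∀ᶠ n in atTop, y ∈ V n) : IsGammaCover (range V) := by
  have hfin : ∀ y, {n | y ∉ V n}.Finite := by
    intro y
    obtain ⟨N, hN⟩ := eventually_atTop.1 (hV y)
    refine (finite_Iio N).subset fun n hn => ?_
    by_contra hcon
    exact hn (hN n (not_lt.1 hcon))
  constructor
  · intro hr
    have h1 : ∀ u ∈ range V, {n | V n = u}.Finite := by
      rintro _ ⟨m, rfl⟩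
      obtain ⟨y, hy⟩ := (ne_univ_iff_exists_notMem _).1 (hne m)
      refine (hfin y).subset fun n (hn : V n = V m) => ?_
      change y ∉ V n
      rwa [hn]
    have h2 : (⋃ u ∈ range V, {n | V n = u}).Finite := hr.biUnion h1
    have h3 : (⋃ u ∈ range V, {n | V n = u}) = univ := by
      rw [eq_univ_iff_forall]
      intro n
      simp
    rw [h3] at h2
    exact infinite_univ h2
  · intro y
    refine ((hfin y).image V).subset ?_
    rintro _ ⟨⟨n, rfl⟩, hn⟩
    exact ⟨n, hn, rfl⟩

section

variable {H : Type} [AddCommGroup H] [TopologicalSpace H] {e : K → H}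

theorem s1_borel {X : Set K} {k : ℕ}
    (hX : ∀ (V : ℕ → ℕ → Set (Fin k → H)), (∀ n i, @MeasurableSet _ (borel _) (V n i)) →
      Bad e X V ∨ Good e X V) {Y : Type} [TopologicalSpace Y] [Nonempty Y] (φ : Y → Fin k → H)
    (hφ : IsInducing φ) (hr : ∀ g, g ∈ range φ ↔ ∀ l, g l ∈ Gp e X) :
    S1 (BorelOmega Y) (BorelGamma Y) := by
  classical
  intro U hU
  have hne : ∀ n, (U n).Nonempty := fun n => by
    obtain ⟨u, hu, _⟩ := (hU n).2.2.2 ∅ finite_empty
    exact ⟨u, hu⟩
  choose u hu using fun n => (hU n).1.exists_eq_range (hne n)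
  have huU : ∀ n i, u n i ∈ U n := fun n i => by rw [hu]; exact mem_range_self i
  have h1 : ∀ n i, ∃ V : Set (Fin k → H), @MeasurableSet _ (borel _) V ∧ φ ⁻¹' V = u n i := by
    intro n i
    have h2 := (hU n).2.1 _ (huU n i)
    rw [hφ.eq_induced, borel_comap] at h2
    exact h2
  choose V hV1 hV2 using h1
  rcases hX V hV1 with ⟨n, F, hF, hFX, hFV⟩ | ⟨s, hs⟩
  · exfalso
    obtain ⟨v, hv, hFv⟩ := (hU n).2.2.2 (Function.invFun φ '' F) (hF.image _)
    rw [hu] at hv
    obtain ⟨i, rfl⟩ := hv
    apply hFV i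
    intro g hg
    have h3 : φ (Function.invFun φ g) = g := Function.invFun_eq ((hr g).2 (hFX g hg))
    have h4 := hFv (mem_image_of_mem _ hg)
    rw [← hV2, mem_preimage, h3] at h4
    exact h4
  · refine ⟨fun n => u n (s n), fun n => huU n _, countable_range _, ?_, ?_⟩
    · rintro _ ⟨n, rfl⟩
      exact (hU n).2.1 _ (huU n _)
    · apply isGammaCover_range
      · intro n h
        apply (hU n).2.2.1
        rw [← h]
        exact huU n _
      · intro y
        filter_upwards [hs (φ y) ((hr _).1 (mem_range_self y))] with n hn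
        rw [← hV2]
        exact hn

end

/-- In a second countable space each open `ω`-cover has a countable subfamily which is an
`ω`-cover. -/
theorem exists_countable {Y : Type*} [TopologicalSpace Y] [SecondCountableTopology Y]
    {U : Set (Set Y)} (hU : U ∈ OpenOmega Y) : ∃ U' ⊆ U, U' ∈ BorelOmega Y := by
  have h1 : ∀ m : ℕ, ∃ T ⊆ U, T.Countable ∧
      ⋃ u ∈ T, (Set.pi univ fun _ : Fin m => u) = ⋃ u ∈ U, Set.pi univ fun _ : Fin m => u :=
    fun m => TopologicalSpace.isOpen_biUnion_countable U (fun u => Set.pi univ fun _ : Fin m => u)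
      fun u hu => isOpen_set_pi finite_univ fun _ _ => hU.1 u hu
  choose T hT1 hT2 hT3 using h1
  refine ⟨⋃ m, T m, iUnion_subset hT1, countable_iUnion hT2, ?_, ?_, ?_⟩
  · intro u hu
    obtain ⟨m, hm⟩ := mem_iUnion.1 hu
    borelize Y
    exact (hU.1 u (hT1 m hm)).measurableSet
  · intro h
    obtain ⟨m, hm⟩ := mem_iUnion.1 h
    exact hU.2.1 (hT1 m hm)
  · intro F hF
    obtain ⟨m, f, rfl⟩ := hF.fin_embedding
    obtain ⟨u, hu, hFu⟩ := hU.2.2 _ hF
    have h2 : (f : Fin m → Y) ∈ ⋃ u ∈ U, Set.pi univ fun _ : Fin m => u := by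
      simp only [mem_iUnion]
      exact ⟨u, hu, fun i _ => hFu (mem_range_self i)⟩
    rw [← hT3 m] at h2
    simp only [mem_iUnion] at h2
    obtain ⟨v, hv, hfv⟩ := h2
    refine ⟨v, mem_iUnion.2 ⟨m, hv⟩, ?_⟩
    rintro _ ⟨i, rfl⟩
    exact hfv i (mem_univ i)

theorem s1_open {Y : Type*} [TopologicalSpace Y] [SecondCountableTopology Y]
    (h : S1 (BorelOmega Y) (BorelGamma Y)) : S1 (OpenOmega Y) (OpenGamma Y) := by
  intro U hU
  choose U' hU1 hU2 using fun n => exists_countable (hU n)
  obtain ⟨V, hV1, hV2⟩ := h U' hU2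
  refine ⟨V, fun n => hU1 n (hV1 n), ?_, hV2.2.2⟩
  rintro _ ⟨n, rfl⟩
  exact (hU n).1 _ (hU1 n (hV1 n))

theorem gp_le_continuum {H : Type} [AddCommGroup H] (e : K → H) (X : Set K) :
    #(Gp e X) ≤ 𝔠 := by
  have h1 : #(Gp e X) ≤ #(K →₀ ℤ) := by
    have h2 : ∀ g : Gp e X, ∃ l : K →₀ ℤ, (l.sum fun x z => z • e x) = g.1 := by
      rintro ⟨g, hg⟩
      have h3 : g ∈ Gp e (∅ ∪ X) := by rwa [empty_union]
      obtain ⟨h, hh, l, _, rfl⟩ := gp_rep e h3
      have h4 : h = 0 := by
        unfold Gp at hh
        rw [image_empty, AddSubgroup.closure_empty, AddSubgroup.mem_bot] at hh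
        exact hh
      exact ⟨l, by simp only [h4, zero_add]⟩
    choose l hl using h2
    refine mk_le_of_injective (f := l) ?_
    intro g g' h
    apply Subtype.ext
    rw [← hl g, ← hl g', h]
  refine h1.trans ?_
  simp [aleph0_le_continuum]

/-- The group for a continuous injection `e`. -/
theorem exists_group (hCH : (𝔠 : Cardinal.{0}) = ℵ₁) {H : Type} [AddCommGroup H]
    [TopologicalSpace H] [IsTopologicalAddGroup H] [SecondCountableTopology H] {e : K → H}
    (he : Continuous e) (hinj : Function.Injective e) :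
    ∃ G : AddSubgroup H, #G = 𝔠 ∧
      (S1 (BorelOmega G) (BorelGamma G) ∧ S1 (OpenOmega G) (OpenGamma G)) ∧
      ∀ k : ℕ, S1 (BorelOmega (Fin k → G)) (BorelGamma (Fin k → G)) ∧
        S1 (OpenOmega (Fin k → G)) (OpenGamma (Fin k → G)) := by
  borelize H
  obtain ⟨X, hX, hmain⟩ := exists_set he hCH
  have hmain' : ∀ (k : ℕ) (V : ℕ → ℕ → Set (Fin k → H)),
      (∀ n i, @MeasurableSet _ (borel _) (V n i)) → Bad e X V ∨ Good e X V := by
    intro k V hV
    apply hmain k V
    intro n i
    have h1 := hV n i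
    rwa [← (Pi.borelSpace : BorelSpace (Fin k → H)).measurable_eq] at h1
  have hG : S1 (BorelOmega (Gp e X)) (BorelGamma (Gp e X)) := by
    refine s1_borel (hmain' 1) (fun g _ => (g : H)) ?_ ?_
    · exact (Homeomorph.funUnique (Fin 1) H).symm.isInducing.comp IsInducing.subtypeVal
    · intro g
      constructor
      · rintro ⟨y, rfl⟩ l
        exact y.2
      · intro h
        refine ⟨⟨g 0, h 0⟩, ?_⟩
        funext l
        rw [Subsingleton.elim l 0]
  have hpow : ∀ k : ℕ, S1 (BorelOmega (Fin k → Gp e X)) (BorelGamma (Fin k → Gp e X)) := by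
    intro k
    refine s1_borel (hmain' k) (fun g l => (g l : H)) ?_ ?_
    · exact IsInducing.piMap fun _ => IsInducing.subtypeVal
    · intro g
      constructor
      · rintro ⟨y, rfl⟩ l
        exact (y l).2
      · intro h
        exact ⟨fun l => ⟨g l, h l⟩, rfl⟩
  have : SecondCountableTopology (Gp e X) :=
    TopologicalSpace.Subtype.secondCountableTopology (Gp e X : Set H)
  refine ⟨Gp e X, le_antisymm (gp_le_continuum e X) ?_, ⟨hG, s1_open hG⟩,
    fun k => ⟨hpow k, s1_open (hpow k)⟩⟩
  rw [← hX]
  refine mk_le_of_injective (f := fun x : X => (⟨e x, mem_gp e x.2⟩ : Gp e X)) ?_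
  intro x y hxy
  exact Subtype.ext (hinj (congrArg Subtype.val hxy))

/-- In every uncountable Polish abelian group there is such a subgroup. -/
theorem exists_group_of_polish (hCH : (𝔠 : Cardinal.{0}) = ℵ₁) (H : Type) [AddCommGroup H]
    [TopologicalSpace H] [IsTopologicalAddGroup H] [PolishSpace H] (hH : Uncountable H) :
    ∃ G : AddSubgroup H, #G = 𝔠 ∧
      (S1 (BorelOmega G) (BorelGamma G) ∧ S1 (OpenOmega G) (OpenGamma G)) ∧
      ∀ k : ℕ, S1 (BorelOmega (Fin k → G)) (BorelGamma (Fin k → G)) ∧
        S1 (OpenOmega (Fin k → G)) (OpenGamma (Fin k → G)) := by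
  obtain ⟨e, _, he, hinj⟩ := isClosed_univ.exists_nat_bool_injection_of_not_countable
    (α := H) (by
      rw [countable_univ_iff]
      exact not_countable_iff.2 hH)
  exact exists_group hCH he hinj

/-- **Theorem.** Assume the continuum hypothesis. There is a subgroup `G` of `ℤ ^ ℕ` of
cardinality `𝔠` which satisfies `S₁(B_Ω, B_Γ)` and `S₁(Ω, Γ)`; moreover all finite powers of `G`
satisfy `S₁(B_Ω, B_Γ)` and `S₁(Ω, Γ)`. -/
theorem result (hCH : (𝔠 : Cardinal.{0}) = ℵ₁) :
    ∃ G : AddSubgroup (ℕ → ℤ), #G = 𝔠 ∧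
      (S1 (BorelOmega G) (BorelGamma G) ∧ S1 (OpenOmega G) (OpenGamma G)) ∧
      ∀ k : ℕ, S1 (BorelOmega (Fin k → G)) (BorelGamma (Fin k → G)) ∧
        S1 (OpenOmega (Fin k → G)) (OpenGamma (Fin k → G)) := by
  have he : Continuous fun (x : K) (n : ℕ) => if x n then (1 : ℤ) else 0 := by
    refine continuous_pi fun n => ?_
    exact (continuous_of_discreteTopology (f := fun b : Bool => if b then (1 : ℤ) else 0)).comp
      (continuous_apply n)
  have hinj : Function.Injective fun (x : K) (n : ℕ) => if x n then (1 : ℤ) else 0 := by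
    intro x y hxy
    funext n
    have := congrFun hxy n
    cases hx : x n <;> cases hy : y n <;> simp_all
  exact exists_group hCH he hinj

end Pool.Agent.Results.MP_cc0654_lc.BorelGammaGroup
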